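import Pool.Agent.X171.Octa

/-!
# `κ`-octahedral norms and copies of `ℓ_1(κ⁺)` (Q1: no, for every infinite `κ`)

`X` is `κ`-octahedral (definition of the problem: for every `ε > 0` and every subspace `Y` with a
dense subset of cardinality at most `κ` there is a norm one `x` with
`‖c x + y‖ ≥ (1 - ε)(|c| + ‖y‖)` for all real `c` and `y ∈ Y`).

`result`: for every infinite cardinal `κ` there is a real Banach space `X` which is
`κ`-octahedral and has no subspace isomorphic to `ℓ_1(I)` for any uncountable `I`; in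
particular none isomorphic to `ℓ_1(κ⁺)`.
-/

set_option autoImplicit false

universe u

namespace Pool.Agent.Results.MP_814c9d_an.OctahedralWithoutEllOne

open Cardinal Order

/-- `κ`-octahedral norms -/
def KappaOctahedral (κ : Cardinal.{u}) (X : Type u) [NormedAddCommGroup X] [NormedSpace ℝ X] :
    Prop :=
  ∀ ε : ℝ, 0 < ε → ∀ Y : Submodule ℝ X,
    (∃ D : Set X, D ⊆ (Y : Set X) ∧ (Y : Set X) ⊆ closure D ∧ #D ≤ κ) →
    ∃ x : X, ‖x‖ = 1 ∧ ∀ c : ℝ, ∀ y ∈ Y, (1 - ε) * (|c| + ‖y‖) ≤ ‖c • x + y‖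

theorem result (κ : Cardinal.{u}) (hκ : ℵ₀ ≤ κ) :
    ∃ (X : Type u) (_ : NormedAddCommGroup X) (_ : NormedSpace ℝ X),
      CompleteSpace X ∧ KappaOctahedral κ X ∧
      (∀ (I : Type u), #I = succ κ →
        ∀ Z : Submodule ℝ X, IsEmpty (lp (fun _ : I => ℝ) 1 ≃L[ℝ] Z)) ∧
      (∀ (I : Type u), ℵ₀ < #I →
        ∀ Z : Submodule ℝ X, IsEmpty (lp (fun _ : I => ℝ) 1 ≃L[ℝ] Z)) := by
  have key : ∀ (I : Type u), ℵ₀ < #I →
      ∀ Z : Submodule ℝ (UniformSpace.Completion (Pool.Agent.X171.Octa.V (succ κ).ord.ToType)),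
        IsEmpty (lp (fun _ : I => ℝ) 1 ≃L[ℝ] Z) := by
    intro I hI Z
    have : Uncountable I := aleph0_lt_mk_iff.1 hI
    exact Pool.Agent.X171.Octa.no_copy Z
  refine ⟨UniformSpace.Completion (Pool.Agent.X171.Octa.V (succ κ).ord.ToType), inferInstance,
    inferInstance, inferInstance, Pool.Agent.X171.Octa.octahedral hκ, ?_, key⟩
  intro I hI
  exact key I (hI ▸ hκ.trans_lt (lt_succ κ))

end Pool.Agent.Results.MP_814c9d_an.OctahedralWithoutEllOne
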